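import Pool.Agent.Helper69.ST.Goals

open MeasureTheory Set Complex Metric Filter
open scoped ContDiff Topology ENNReal

namespace Pool.Agent.Helper83.ST.KP

open Pool.Agent.Helper69.ST

/-- The Poisson kernel (normalised by `1 - ρ²`). -/
noncomputable def K (ρ : ℝ) (w : ℂ) (θ : ℝ) : ℝ := (1 - ρ ^ 2) / ‖w - ρ * exp (θ * I)‖ ^ 2

theorem re_div (w z : ℂ) (h : w - z ≠ 0) : ((w + z) / (w - z)).re = (‖w‖ ^ 2 - ‖z‖ ^ 2) / ‖w - z‖ ^ 2 := by
  have hn : Complex.normSq (w - z) ≠ 0 := by simpa [Complex.normSq_eq_zero] using h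
  rw [Complex.div_re, Complex.sq_norm, Complex.sq_norm, Complex.sq_norm]
  rw [← add_div]
  congr 1
  simp only [Complex.normSq_apply, Complex.add_re, Complex.sub_re, Complex.add_im, Complex.sub_im]
  ring

theorem norm_rho (ρ : ℝ) (h0 : 0 < ρ) (θ : ℝ) : ‖(ρ : ℂ) * exp (θ * I)‖ = ρ := by
  rw [norm_mul, Complex.norm_exp_ofReal_mul_I, mul_one, Complex.norm_real, Real.norm_eq_abs, abs_of_pos h0]

theorem ne_of_norm {w z : ℂ} (h : ‖z‖ < ‖w‖) : w - z ≠ 0 := by
  intro h'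
  rw [sub_eq_zero] at h'
  rw [h'] at h
  exact lt_irrefl _ h

theorem cont_K (ρ : ℝ) (w : ℂ) (h0 : 0 < ρ) (hw : ρ < ‖w‖) : Continuous (K ρ w) := by
  unfold K
  apply Continuous.div continuous_const
  · fun_prop
  · intro θ
    have : w - ρ * exp (θ * I) ≠ 0 := ne_of_norm (by rw [norm_rho ρ h0]; exact hw)
    positivity

theorem int_K (ρ : ℝ) (w : ℂ) (h0 : 0 < ρ) (hw : ρ < ‖w‖) :
    ∫ θ in (-Real.pi)..Real.pi, K ρ w θ = 2 * Real.pi * ((1 - ρ ^ 2) / (‖w‖ ^ 2 - ρ ^ 2)) := by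
  have hd : DiffContOnCl ℂ (fun z : ℂ => (w + z) / (w - z)) (ball 0 |ρ|) := by
    rw [abs_of_pos h0]
    apply DifferentiableOn.diffContOnCl
    intro z hz
    rw [closure_ball _ h0.ne', mem_closedBall_zero_iff] at hz
    have : w - z ≠ 0 := ne_of_norm (lt_of_le_of_lt hz hw)
    apply DifferentiableAt.differentiableWithinAt
    apply DifferentiableAt.div (by fun_prop) (by fun_prop) this
  have h1 := hd.circleAverage
  have hw0 : w ≠ 0 := by
    intro h
    rw [h, norm_zero] at hw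
    linarith
  simp only [add_zero, sub_zero, div_self hw0] at h1
  rw [Real.circleAverage_def] at h1
  have hcont : Continuous (fun θ : ℝ => (w + circleMap 0 ρ θ) / (w - circleMap 0 ρ θ)) := by
    apply Continuous.div
    · exact continuous_const.add (continuous_circleMap 0 ρ)
    · exact continuous_const.sub (continuous_circleMap 0 ρ)
    · intro θ
      apply ne_of_norm
      rw [norm_circleMap_zero, abs_of_pos h0]
      exact hw
  have h2 : ∫ θ in (0 : ℝ)..2 * Real.pi, ((w + circleMap 0 ρ θ) / (w - circleMap 0 ρ θ)).re = 2 * Real.pi := by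
    have h3 : ∫ θ in (0 : ℝ)..2 * Real.pi, (w + circleMap 0 ρ θ) / (w - circleMap 0 ρ θ) = (2 * Real.pi : ℝ) := by
      have h4 : ((2 * Real.pi : ℝ)) • ((2 * Real.pi)⁻¹ • ∫ θ in (0 : ℝ)..2 * Real.pi, (w + circleMap 0 ρ θ) / (w - circleMap 0 ρ θ)) = (2 * Real.pi : ℝ) • (1 : ℂ) := by
        rw [h1]
      rw [smul_smul, mul_inv_cancel₀ (by positivity), one_smul] at h4
      rw [h4]
      simp
    have h5 := congrArg Complex.re h3
    rw [Complex.ofReal_re] at h5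
    refine Eq.trans ?_ h5
    have h6 := (Complex.reCLM.intervalIntegral_comp_comm (hcont.intervalIntegrable (μ := volume) 0 (2 * Real.pi)))
    simpa using h6
  have h7 : ∀ θ : ℝ, K ρ w θ = ((1 - ρ ^ 2) / (‖w‖ ^ 2 - ρ ^ 2)) * ((w + circleMap 0 ρ θ) / (w - circleMap 0 ρ θ)).re := by
    intro θ
    have hz : circleMap 0 ρ θ = ρ * exp (θ * I) := by simp [circleMap]
    rw [hz, re_div, norm_rho ρ h0]
    · unfold K
      have : ‖w‖ ^ 2 - ρ ^ 2 ≠ 0 := by nlinarith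
      field_simp
    · exact ne_of_norm (by rw [norm_rho ρ h0]; exact hw)
  have hper : Function.Periodic (K ρ w) (2 * Real.pi) := by
    intro θ
    unfold K
    have : exp (((θ + 2 * Real.pi : ℝ) : ℂ) * I) = exp (θ * I) := by
      push_cast
      rw [add_mul, Complex.exp_add, Complex.exp_two_pi_mul_I, mul_one]
    rw [this]
  have h8 : ∫ θ in (-Real.pi)..Real.pi, K ρ w θ = ∫ θ in (0 : ℝ)..2 * Real.pi, K ρ w θ := by
    have := hper.intervalIntegral_add_eq (-Real.pi) 0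
    rw [show -Real.pi + 2 * Real.pi = Real.pi by ring, zero_add] at this
    exact this
  rw [h8]
  simp_rw [h7]
  rw [intervalIntegral.integral_const_mul, h2]
  ring

theorem norm_le (ρ : ℝ) (w : ℂ) (h0 : 0 < ρ) (h1 : ρ < 1) (hw : ρ < ‖w‖) (hw1 : ‖w‖ < 1) (θ : ℝ) :
    ‖(1 - (ρ : ℂ) ^ 2) * w / ((w - ρ * exp (θ * I)) * (1 - ρ * exp (-(θ * I)) * w))‖ ≤ ‖w‖ * K ρ w θ := by
  have hA : 0 < ‖w - ρ * exp (θ * I)‖ := norm_pos_iff.2 (ne_of_norm (by rw [norm_rho ρ h0]; exact hw))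
  have hle : ‖w - ρ * exp (θ * I)‖ ≤ ‖1 - ρ * exp (-(θ * I)) * w‖ := by
    rw [← abs_of_nonneg (norm_nonneg (w - ρ * exp (θ * I))), ← abs_of_nonneg (norm_nonneg (1 - ρ * exp (-(θ * I)) * w)), ← sq_le_sq,
      Complex.sq_norm, Complex.sq_norm]
    have e1 : exp (-(θ * I)) = starRingEnd ℂ (exp (θ * I)) := by
      rw [← Complex.exp_conj]
      simp
    set z := exp (θ * I) with hz
    have hz1 : Complex.normSq z = 1 := by
      rw [← Complex.sq_norm, hz, Complex.norm_exp_ofReal_mul_I]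
      norm_num
    rw [e1]
    have hw2 : Complex.normSq w < 1 := by
      rw [← Complex.sq_norm]
      nlinarith [norm_nonneg w]
    simp only [Complex.normSq_apply, Complex.sub_re, Complex.sub_im, Complex.mul_re, Complex.mul_im, Complex.ofReal_re,
      Complex.ofReal_im, Complex.conj_re, Complex.conj_im, Complex.one_re, Complex.one_im] at hz1 hw2 ⊢
    have hr : ρ ^ 2 < 1 := by nlinarith
    have key : (1 - ((ρ * z.re - 0 * -z.im) * w.re - (ρ * -z.im + 0 * z.re) * w.im)) *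
          (1 - ((ρ * z.re - 0 * -z.im) * w.re - (ρ * -z.im + 0 * z.re) * w.im)) +
        (0 - ((ρ * z.re - 0 * -z.im) * w.im + (ρ * -z.im + 0 * z.re) * w.re)) *
          (0 - ((ρ * z.re - 0 * -z.im) * w.im + (ρ * -z.im + 0 * z.re) * w.re)) -
        ((w.re - (ρ * z.re - 0 * z.im)) * (w.re - (ρ * z.re - 0 * z.im)) +
        (w.im - (ρ * z.im + 0 * z.re)) * (w.im - (ρ * z.im + 0 * z.re))) =
        1 + ρ ^ 2 * (z.re * z.re + z.im * z.im) * (w.re * w.re + w.im * w.im) - (w.re * w.re + w.im * w.im)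
          - ρ ^ 2 * (z.re * z.re + z.im * z.im) := by ring
    rw [hz1] at key
    have h3 : 0 ≤ (1 - ρ ^ 2) * (1 - (w.re * w.re + w.im * w.im)) := by
      apply mul_nonneg <;> linarith
    nlinarith
  rw [norm_div, norm_mul, norm_mul]
  have h2 : ‖(1 : ℂ) - (ρ : ℂ) ^ 2‖ = 1 - ρ ^ 2 := by
    have : (1 : ℂ) - (ρ : ℂ) ^ 2 = ((1 - ρ ^ 2 : ℝ) : ℂ) := by push_cast; ring
    rw [this, Complex.norm_real, Real.norm_eq_abs, abs_of_nonneg]
    nlinarith
  rw [h2]
  unfold K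
  rw [← mul_div_assoc, mul_comm ‖w‖]
  apply div_le_div_of_nonneg_left
  · apply mul_nonneg _ (norm_nonneg _)
    nlinarith
  · positivity
  · rw [sq]
    exact mul_le_mul_of_nonneg_left hle hA.le

theorem t : S_KP := by
  intro g hg hg0 ε hε
  -- a bound for `g`
  obtain ⟨M, hM⟩ := (isCompact_closedBall (0 : ℂ) 1).exists_bound_of_continuousOn (f := g) hg.continuousOn
  have hM' : ∀ w : ℂ, ‖w‖ ≤ 1 → g w ≤ M := fun w hw => le_trans (le_abs_self _) (hM w (by simpa using hw))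
  have hM0 : 0 ≤ M := le_trans (hg0 0) (hM' 0 (by simp))
  have huc := (isCompact_closedBall (0 : ℂ) 1).uniformContinuousOn_of_continuous hg.continuousOn
  rw [Metric.uniformContinuousOn_iff] at huc
  obtain ⟨η, hη, hη'⟩ := huc (ε / 4) (by linarith)
  have hu : ∀ x y : ℂ, ‖x‖ ≤ 1 → ‖y‖ ≤ 1 → ‖x - y‖ < η → g x ≤ g y + ε / 4 := by
    intro x y hx hy hxy
    have := hη' x (by simpa using hx) y (by simpa using hy) (by rw [dist_eq_norm]; exact hxy)
    rw [Real.dist_eq] at this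
    have := (abs_lt.1 this).2
    linarith
  -- the choice of `ρ₀`
  obtain ⟨ρ₀, hρ0, hρ1, hρ2, hρ3⟩ : ∃ ρ₀ : ℝ, 0 < ρ₀ ∧ ρ₀ < 1 ∧ 1 - ρ₀ ≤ η / 2 ∧ 8 * M * (1 - ρ₀) ≤ ε / 4 * η ^ 2 := by
    set s := min (1 / 2) (min (η / 2) (ε / 4 * η ^ 2 / (8 * (M + 1)))) with hs
    have hs0 : 0 < s := by
      rw [hs]
      positivity
    have hs1 : s ≤ 1 / 2 := min_le_left _ _
    have hs2 : s ≤ η / 2 := le_trans (min_le_right _ _) (min_le_left _ _)
    have hs3 : s ≤ ε / 4 * η ^ 2 / (8 * (M + 1)) := le_trans (min_le_right _ _) (min_le_right _ _)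
    rw [le_div_iff₀ (by positivity)] at hs3
    refine ⟨1 - s, by linarith, by linarith, by linarith, ?_⟩
    nlinarith
  refine ⟨ρ₀, hρ0, hρ1, ?_⟩
  intro ρ h1 h2
  have h0 : 0 < ρ := by linarith
  have hq : 0 < 1 - ρ ^ 2 := by nlinarith
  -- the choice of `δ`
  set e' := ε / 4 / (M + ε / 4 + 1) with he'
  have he0 : 0 < e' := by positivity
  have he1 : (M + ε / 4) * e' ≤ ε / 4 := by
    rw [he', mul_div_assoc', div_le_iff₀ (by positivity)]
    nlinarith
  set δ := e' * (1 - ρ ^ 2) / (2 * (1 + e')) with hδ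
  have hδ0 : 0 < δ := by positivity
  have hδ1 : 2 * δ * (1 + e') = e' * (1 - ρ ^ 2) := by
    rw [hδ]
    field_simp
  refine ⟨δ, hδ0, ?_⟩
  intro Q hQ hQg w hw1 hw2
  -- `‖w‖² - ρ²`
  have hδ2 : 2 * δ < 1 - ρ ^ 2 := by nlinarith
  have hδ3 : δ < 1 := by nlinarith
  have hw3 : 1 - 2 * δ < ‖w‖ ^ 2 := by nlinarith [norm_nonneg w]
  have hw4 : 0 < ‖w‖ ^ 2 - ρ ^ 2 := by linarith
  have hw5 : ρ < ‖w‖ := by
    by_contra hcon
    push Not at hcon
    nlinarith [norm_nonneg w]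
  have hwpos : 0 < ‖w‖ := by linarith
  have hR : (1 - ρ ^ 2) / (‖w‖ ^ 2 - ρ ^ 2) ≤ 1 + e' := by
    rw [div_le_iff₀ hw4]
    nlinarith
  -- the pointwise bound
  have hpt : ∀ θ : ℝ, ‖Q θ * ((1 - (ρ : ℂ) ^ 2) * w / ((w - ρ * exp (θ * I)) * (1 - ρ * exp (-(θ * I)) * w)))‖ ≤
      ‖w‖ * ((g w + ε / 4) * K ρ w θ + ε / 4) := by
    intro θ
    rw [norm_mul]
    have a1 := norm_le ρ w h0 h2 hw5 hw2 θ
    have hK0 : 0 ≤ K ρ w θ := by
      unfold K
      positivity
    have a2 : ‖Q θ‖ * ‖(1 - (ρ : ℂ) ^ 2) * w / ((w - ρ * exp (θ * I)) * (1 - ρ * exp (-(θ * I)) * w))‖ ≤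
        g (exp (θ * I)) * (‖w‖ * K ρ w θ) :=
      mul_le_mul (hQg θ) a1 (norm_nonneg _) (hg0 _)
    refine le_trans a2 ?_
    have a3 : g (exp (θ * I)) * K ρ w θ ≤ (g w + ε / 4) * K ρ w θ + ε / 4 := by
      by_cases hc : ‖exp (θ * I) - w‖ < η
      · have := hu (exp (θ * I)) w (by rw [Complex.norm_exp_ofReal_mul_I]) hw2.le hc
        have := mul_le_mul_of_nonneg_right this hK0
        linarith
      · push Not at hc
        have b1 : η / 2 ≤ ‖w - ρ * exp (θ * I)‖ := by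
          have b2 : exp (θ * I) - w = (exp (θ * I) - ρ * exp (θ * I)) - (w - ρ * exp (θ * I)) := by ring
          have b3 : ‖exp (θ * I) - ρ * exp (θ * I)‖ = 1 - ρ := by
            have : exp (θ * I) - ρ * exp (θ * I) = ((1 - ρ : ℝ) : ℂ) * exp (θ * I) := by push_cast; ring
            rw [this, norm_rho (1 - ρ) (by linarith)]
          have b4 := norm_sub_le (exp (θ * I) - ρ * exp (θ * I)) (w - ρ * exp (θ * I))
          rw [← b2, b3] at b4
          linarith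
        have b5 : g (exp (θ * I)) ≤ M := hM' _ (by rw [Complex.norm_exp_ofReal_mul_I])
        have b6 : K ρ w θ ≤ 2 * (1 - ρ₀) / (η / 2) ^ 2 := by
          unfold K
          apply div_le_div₀
          · nlinarith
          · nlinarith
          · positivity
          · exact pow_le_pow_left₀ (by positivity) b1 2
        have b7 : M * (2 * (1 - ρ₀) / (η / 2) ^ 2) ≤ ε / 4 := by
          rw [← mul_div_assoc, div_le_iff₀ (by positivity)]
          nlinarith
        have b8 : g (exp (θ * I)) * K ρ w θ ≤ M * (2 * (1 - ρ₀) / (η / 2) ^ 2) :=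
          mul_le_mul b5 b6 hK0 hM0
        have b9 : 0 ≤ (g w + ε / 4) * K ρ w θ := by
          have := hg0 w
          positivity
        linarith
    calc g (exp (θ * I)) * (‖w‖ * K ρ w θ) = ‖w‖ * (g (exp (θ * I)) * K ρ w θ) := by ring
      _ ≤ _ := mul_le_mul_of_nonneg_left a3 hwpos.le
  have hKc := cont_K ρ w h0 hw5
  have hint : ‖∫ θ in (-Real.pi)..Real.pi, Q θ * ((1 - (ρ : ℂ) ^ 2) * w / ((w - ρ * exp (θ * I)) * (1 - ρ * exp (-(θ * I)) * w)))‖ ≤
      ∫ θ in (-Real.pi)..Real.pi, ‖w‖ * ((g w + ε / 4) * K ρ w θ + ε / 4) := by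
    apply intervalIntegral.norm_integral_le_of_norm_le
    · linarith [Real.pi_pos]
    · exact Filter.Eventually.of_forall (fun θ _ => hpt θ)
    · apply Continuous.intervalIntegrable
      fun_prop
  have hval : ∫ θ in (-Real.pi)..Real.pi, ‖w‖ * ((g w + ε / 4) * K ρ w θ + ε / 4) =
      2 * Real.pi * ‖w‖ * ((g w + ε / 4) * ((1 - ρ ^ 2) / (‖w‖ ^ 2 - ρ ^ 2)) + ε / 4) := by
    rw [intervalIntegral.integral_const_mul, intervalIntegral.integral_add, intervalIntegral.integral_const_mul, int_K ρ w h0 hw5,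
      intervalIntegral.integral_const]
    · rw [smul_eq_mul]
      ring
    · exact (continuous_const.mul hKc).intervalIntegrable _ _
    · exact continuous_const.intervalIntegrable _ _
  rw [hval] at hint
  have hnorm : ‖Pool.Agent.Helper69.ST.ker Q ρ w / w‖ ≤ (g w + ε / 4) * ((1 - ρ ^ 2) / (‖w‖ ^ 2 - ρ ^ 2)) + ε / 4 := by
    unfold Pool.Agent.Helper69.ST.ker
    rw [norm_div, norm_mul, div_le_iff₀ hwpos]
    have c1 : ‖(2 * (Real.pi : ℂ))⁻¹‖ = (2 * Real.pi)⁻¹ := by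
      rw [norm_inv, norm_mul, Complex.norm_real, Real.norm_eq_abs, abs_of_pos Real.pi_pos]
      simp
    rw [c1]
    have c2 := mul_le_mul_of_nonneg_left hint (show 0 ≤ (2 * Real.pi)⁻¹ by positivity)
    refine le_trans c2 (le_of_eq ?_)
    have : (2 * Real.pi) ≠ 0 := by positivity
    rw [mul_assoc (2 * Real.pi), inv_mul_cancel_left₀ this]
    ring
  have hgM : g w ≤ M := hM' w hw2.le
  have hlast : (g w + ε / 4) * ((1 - ρ ^ 2) / (‖w‖ ^ 2 - ρ ^ 2)) ≤ (g w + ε / 4) * (1 + e') := by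
    apply mul_le_mul_of_nonneg_left hR
    have := hg0 w
    linarith
  have hlast2 : (g w + ε / 4) * e' ≤ (M + ε / 4) * e' := mul_le_mul_of_nonneg_right (by linarith) he0.le
  nlinarith

end Pool.Agent.Helper83.ST.KP
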